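import Pool.Agent.helper17.RX.Spec

/-!
Row `rx:GRO` (MP_f42afa_pr): growth of the bound in the number of rounds.
-/

set_option autoImplicit false

namespace TP.TW

open DP MeasureTheory Finset

theorem GRO : GRO_stmt := by
  intro C ε hC hε
  refine ⟨min (ε / 4) 1, by positivity, max 3 ⌈Real.exp (max C (Real.exp 1))⌉₊,
    le_max_left _ _, ?_⟩
  intro n R hn hR hRc
  have hn1 : Real.exp (max C (Real.exp 1)) ≤ (n : ℝ) := by
    have h1 := le_trans (le_max_right 3 _) hn
    exact (Nat.le_ceil _).trans (by exact_mod_cast h1)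
  have hn0 : (0 : ℝ) < n := (Real.exp_pos _).trans_le hn1
  have hLm : max C (Real.exp 1) ≤ Real.log n := (Real.le_log_iff_exp_le hn0).mpr hn1
  have hpow : (n : ℝ) ^ ε = Real.exp (ε * Real.log n) := by
    rw [Real.rpow_def_of_pos hn0, mul_comm]
  rw [hpow]
  generalize Real.log n = L at *
  have hLC : C ≤ L := (le_max_left _ _).trans hLm
  have hLe : Real.exp 1 ≤ L := (le_max_right _ _).trans hLm
  have hL0 : 0 < L := (Real.exp_pos 1).trans_le hLe
  have hl : 1 ≤ Real.log L := (Real.le_log_iff_exp_le hL0).mpr hLe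
  have hLexp : L = Real.exp (Real.log L) := (Real.exp_log hL0).symm
  have hl0 : 0 < Real.log L := by linarith
  have hRl : (R : ℝ) * Real.log L ≤ min (ε / 4) 1 * L := (le_div_iff₀ hl0).mp hRc
  have hR0 : (0 : ℝ) ≤ R := Nat.cast_nonneg R
  have hRL : (R : ℝ) ≤ L := by
    have h1 : (R : ℝ) ≤ R * Real.log L := le_mul_of_one_le_right hR0 hl
    have h2 : min (ε / 4) 1 * L ≤ 1 * L := mul_le_mul_of_nonneg_right (min_le_right _ _) hL0.le
    linarith
  have hC0 : 0 ≤ C := by linarith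
  have hb : C * ((R : ℝ) ^ 2 * L) ≤ L ^ 4 := by
    have h1 : (R : ℝ) ^ 2 ≤ L ^ 2 := pow_le_pow_left₀ hR0 hRL 2
    calc C * ((R : ℝ) ^ 2 * L) ≤ L * (L ^ 2 * L) := by gcongr
      _ = L ^ 4 := by ring
  have hf : (L ^ 4) ^ R = Real.exp (4 * ((R : ℝ) * Real.log L)) := by
    have h3 : Real.exp (4 * ((R : ℝ) * Real.log L)) = Real.exp (Real.log L) ^ (4 * R) := by
      rw [← Real.exp_nat_mul]
      congr 1
      push_cast
      ring
    rw [h3, Real.exp_log hL0, pow_mul]
  calc (C * ((R : ℝ) ^ 2 * L)) ^ R ≤ (L ^ 4) ^ R := pow_le_pow_left₀ (by positivity) hb R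
    _ = Real.exp (4 * ((R : ℝ) * Real.log L)) := hf
    _ ≤ Real.exp (ε * L) := by
        apply Real.exp_le_exp.mpr
        have h4 : min (ε / 4) 1 * L ≤ ε / 4 * L :=
          mul_le_mul_of_nonneg_right (min_le_left _ _) hL0.le
        linarith

end TP.TW
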